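import Pool.Agent.Helper12_NGR.StmtsC

/-!
Squad NGR, module CDZ: an infinite group has positive cohomological dimension.
-/

set_option autoImplicit false

universe u

namespace Pool.Agent.NGR.H50

open Pool.Agent.NGR

theorem finite_of_invariant {G : Type u} [Group G] (a : MonoidAlgebra ℤ G) (ha : a ≠ 0)
    (h : ∀ g : G, MonoidAlgebra.single g (1 : ℤ) * a = a) : Finite G := by
  obtain ⟨k, hk⟩ : ∃ k, a.coeff k ≠ 0 := by
    by_contra hcon
    push Not at hcon
    exact ha (MonoidAlgebra.coeff_injective (Finsupp.ext hcon))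
  have hall : ∀ g : G, a.coeff (g⁻¹ * k) ≠ 0 := by
    intro g
    have h1 : (MonoidAlgebra.single g (1 : ℤ) * a).coeff k = 1 * a.coeff (g⁻¹ * k) := by
      apply MonoidAlgebra.coeff_single_mul_eq_mul_coeff
      intro m _
      rw [eq_inv_mul_iff_mul_eq]
    rw [h g, one_mul] at h1
    rw [← h1]
    exact hk
  have hfin : (Set.univ : Set G).Finite := by
    apply (a.coeff.support.finite_toSet).subset
    intro x _
    have h2 := hall (k * x⁻¹)
    rw [mul_inv_rev, inv_inv, inv_mul_cancel_right] at h2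
    exact Finsupp.mem_support_iff.mpr h2
  exact Set.finite_univ_iff.mp hfin

theorem cdz : CdzStmt := by
  rintro G _ ⟨Q, _, _, d, ε, hP, hs, hinv, hsurj, hex, _⟩
  have : Subsingleton (Q 1) := hs 1 Nat.zero_lt_one
  have hinj : Function.Injective ε := by
    rw [injective_iff_map_eq_zero]
    intro x hx
    obtain ⟨y, rfl⟩ := (hex x).mp hx
    rw [Subsingleton.elim y 0, map_zero]
  obtain ⟨x, hx⟩ := hsurj 1
  have hxg : ∀ g : G, MonoidAlgebra.single g (1 : ℤ) • x = x := fun g => hinj (hinv g x)
  have hx0 : x ≠ 0 := by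
    rintro rfl
    rw [map_zero] at hx
    exact zero_ne_one hx
  obtain ⟨s, hsp⟩ := (Module.projective_def' (R := MonoidAlgebra ℤ G) (P := Q 0)).mp (hP 0)
  have hsx : s x ≠ 0 := by
    intro h0
    apply hx0
    have h1 := LinearMap.congr_fun hsp x
    rw [LinearMap.comp_apply, h0, map_zero] at h1
    exact h1.symm
  obtain ⟨p, hp⟩ : ∃ p, s x p ≠ 0 := by
    by_contra hcon
    push Not at hcon
    exact hsx (Finsupp.ext hcon)
  apply finite_of_invariant (s x p) hp
  intro g
  have h2 : MonoidAlgebra.single g (1 : ℤ) • s x = s x := by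
    rw [← map_smul, hxg]
  have h3 := DFunLike.congr_fun h2 p
  rw [Finsupp.smul_apply, smul_eq_mul] at h3
  exact h3

end Pool.Agent.NGR.H50
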